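import Pool.Agent.H902R3.ZA.Defs

/-! Matrix form of the linear bound for the number of segments, without a rank hypothesis. -/

set_option autoImplicit false

open scoped RealInnerProductSpace

namespace Pool.Agent.W555.ZL

open Pool.Agent.H172R2.ZS (E)
open Pool.Agent.H902R3.ZA (S_ITER)

theorem vec (h : S_ITER) : ∃ C : ℝ, 0 < C ∧ ∀ (d m : ℕ) (u : Fin m → E d) (ε : ℝ), 0 < ε →
    ε ≤ 1 / 2 → ∃ (N : ℕ) (v : Fin N → E d), (N : ℝ) ≤ C * d / ε ^ 2 ∧
      ∀ x : E d, ∑ k, |⟪v k, x⟫| ≤ ∑ j, |⟪u j, x⟫| ∧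
        ∑ j, |⟪u j, x⟫| ≤ (1 + ε) * ∑ k, |⟪v k, x⟫| := by
  obtain ⟨C, hC, h⟩ := h
  refine ⟨16 * C, by positivity, fun d m u ε hε hε2 => ?_⟩
  set W : Submodule ℝ (E d) := Submodule.span ℝ (Set.range u) with hW
  have hmem : ∀ j, u j ∈ W := fun j => Submodule.subset_span ⟨j, rfl⟩
  set r := Module.finrank ℝ W with hr
  have hrd : r ≤ d := by
    have := Submodule.finrank_le W
    simpa using this
  rcases Nat.eq_zero_or_pos r with h0 | h0
  · have hbot : W = ⊥ := by
      rw [← Submodule.finrank_eq_zero (R := ℝ)]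
      exact h0
    have hu : ∀ j, u j = 0 := fun j => by
      have := hmem j
      rw [hbot] at this
      simpa using this
    refine ⟨0, Fin.elim0, ?_, fun x => ?_⟩
    · simp; positivity
    · simp [hu]
  · have b := stdOrthonormalBasis ℝ W
    set u' : Fin m → E r := fun j => b.repr ⟨u j, hmem j⟩ with hu'
    have hspan : ∀ x : E r, (∀ j, ⟪u' j, x⟫ = 0) → x = 0 := by
      intro x hx
      set w : W := b.repr.symm x with hw
      have h1 : ∀ j, ⟪u j, (w : E d)⟫ = 0 := by
        intro j
        have h2 := hx j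
        rw [hu'] at h2
        have h3 : ⟪b.repr ⟨u j, hmem j⟩, x⟫ = ⟪(⟨u j, hmem j⟩ : W), w⟫ := by
          rw [← b.repr.inner_map_map ⟨u j, hmem j⟩ w, hw]
          simp
        rw [h3] at h2
        exact h2
      have h4 : (w : E d) ∈ Wᗮ := by
        rw [Submodule.mem_orthogonal]
        intro y hy
        replace hy : y ∈ Submodule.span ℝ (Set.range u) := hy
        induction hy using Submodule.span_induction with
        | mem y hy => obtain ⟨j, rfl⟩ := hy; exact h1 j
        | zero => simp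
        | add y z _ _ hy hz => rw [inner_add_left, hy, hz, add_zero]
        | smul a y _ hy => rw [inner_smul_left, hy, mul_zero]
      have h5 : (w : E d) = 0 := by
        have := Submodule.mem_orthogonal W (w : E d) |>.1 h4 w w.2
        exact inner_self_eq_zero.1 this
      have h6 : w = 0 := Subtype.ext h5
      have : x = b.repr w := by rw [hw]; simp
      rw [this, h6]; simp
    obtain ⟨N, v', hN, hv⟩ := h r m u' h0 hspan (ε / 4) (by positivity) (by linarith)
    have hε4 : (0 : ℝ) < 1 + ε / 4 := by positivity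
    refine ⟨N, fun k => (1 / (1 + ε / 4)) • ((b.repr.symm (v' k) : W) : E d), ?_, fun x => ?_⟩
    · have h7 : C * r / (ε / 4) ^ 2 ≤ 16 * C * d / ε ^ 2 := by
        have : C * r / (ε / 4) ^ 2 = 16 * C * r / ε ^ 2 := by
          field_simp; ring
        rw [this]
        have : (r : ℝ) ≤ d := by exact_mod_cast hrd
        gcongr
      exact hN.trans h7
    · set p : W := W.orthogonalProjectionOnto x with hp
      have hin : ∀ y : W, ⟪(y : E d), x⟫ = ⟪b.repr y, b.repr p⟫ := by
        intro y
        rw [b.repr.inner_map_map, hp]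
        exact (Submodule.inner_orthogonalProjectionOnto_eq_of_mem_left y x).symm
      have hU : ∑ j, |⟪u j, x⟫| = ∑ j, |⟪u' j, b.repr p⟫| := by
        refine Finset.sum_congr rfl fun j _ => ?_
        rw [← hin ⟨u j, hmem j⟩]
      have hV : ∑ k, |⟪(1 / (1 + ε / 4)) • ((b.repr.symm (v' k) : W) : E d), x⟫| =
          (1 / (1 + ε / 4)) * ∑ k, |⟪v' k, b.repr p⟫| := by
        rw [Finset.mul_sum]
        refine Finset.sum_congr rfl fun k _ => ?_
        rw [inner_smul_left, hin, abs_mul]
        simp [abs_of_pos hε4]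
      rw [hU, hV]
      have h8 := hv (b.repr p)
      set U := ∑ j, |⟪u' j, b.repr p⟫| with hUdef
      set V := ∑ k, |⟪v' k, b.repr p⟫| with hVdef
      have hU0 : 0 ≤ U := Finset.sum_nonneg fun _ _ => abs_nonneg _
      rw [abs_le] at h8
      obtain ⟨h9, h10⟩ := h8
      constructor
      · rw [div_mul_eq_mul_div, one_mul, div_le_iff₀ hε4]
        linarith
      · rw [div_mul_eq_mul_div, one_mul, mul_div_assoc', le_div_iff₀ hε4]
        nlinarith [mul_nonneg hU0 hε.le, mul_nonneg (mul_nonneg hU0 hε.le) hε.le]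

end Pool.Agent.W555.ZL
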