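import Pool.Agent.W555.RG

set_option autoImplicit false

namespace Pool.Agent.W555.Ex

open scoped ContDiff Topology
open Pool.Agent.W555.RG

/-- Euclidean 3-space. -/
abbrev P : Type := EuclideanSpace ℝ (Fin 3)
/-- the 4-dimensional vector space with coordinates `(r, y)` -/
abbrev M4 : Type := ℝ × P
/-- the 5-dimensional vector space with coordinates `(t, r, y)` -/
abbrev N5 : Type := ℝ × M4

noncomputable def dt : N5 →L[ℝ] ℝ := ContinuousLinearMap.fst ℝ ℝ M4
noncomputable def dr : N5 →L[ℝ] ℝ :=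
  (ContinuousLinearMap.fst ℝ ℝ P).comp (ContinuousLinearMap.snd ℝ ℝ M4)

@[simp] theorem dt_apply (X : N5) : dt X = X.1 := rfl
@[simp] theorem dr_apply (X : N5) : dr X = X.2.1 := rfl

/-- derivative of a function of `(t, r)` -/
def HD (F : N5 → ℝ) (a b : ℝ) (x : N5) : Prop := HasFDerivAt F (a • dt + b • dr) x

namespace HD

variable {F G : N5 → ℝ} {a b c d : ℝ} {x : N5}

theorem congr (h : HD F a b x) (h1 : a = c) (h2 : b = d) : HD F c d x := by
  subst h1; subst h2; exact h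

theorem const (k : ℝ) : HD (fun _ => k) 0 0 x := by
  unfold HD; simpa using hasFDerivAt_const k x

theorem add (h : HD F a b x) (h' : HD G c d x) :
    HD (fun y => F y + G y) (a + c) (b + d) x := by
  unfold HD at *
  refine (HasFDerivAt.add h h').congr_fderiv ?_
  module

theorem sub (h : HD F a b x) (h' : HD G c d x) :
    HD (fun y => F y - G y) (a - c) (b - d) x := by
  unfold HD at *
  refine (HasFDerivAt.sub h h').congr_fderiv ?_
  module

theorem neg (h : HD F a b x) : HD (fun y => -F y) (-a) (-b) x := by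
  unfold HD at *
  refine (HasFDerivAt.neg h).congr_fderiv ?_
  module

theorem mul (h : HD F a b x) (h' : HD G c d x) :
    HD (fun y => F y * G y) (a * G x + F x * c) (b * G x + F x * d) x := by
  unfold HD at *
  refine (HasFDerivAt.mul h h').congr_fderiv ?_
  module

theorem inv (h : HD F a b x) (hne : F x ≠ 0) :
    HD (fun y => (F y)⁻¹) (-a / F x ^ 2) (-b / F x ^ 2) x := by
  unfold HD at *
  refine ((hasDerivAt_inv hne).comp_hasFDerivAt x h).congr_fderiv ?_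
  rw [smul_add, smul_smul, smul_smul]
  congr 2 <;> ring

theorem div (h : HD F a b x) (h' : HD G c d x) (hne : G x ≠ 0) :
    HD (fun y => F y / G y) (a / G x - F x * c / G x ^ 2) (b / G x - F x * d / G x ^ 2) x := by
  have := h.mul (h'.inv hne)
  simp only [← div_eq_mul_inv] at this
  refine this.congr ?_ ?_ <;> ring

theorem ofT {k : ℝ → ℝ} {k' : ℝ} (h : HasDerivAt k k' x.1) : HD (fun y => k y.1) k' 0 x := by
  unfold HD
  have h1 : HasFDerivAt (fun y : N5 => y.1) dt x := dt.hasFDerivAt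
  refine (h.comp_hasFDerivAt x h1).congr_fderiv ?_
  module

theorem ofR {k : ℝ → ℝ} {k' : ℝ} (h : HasDerivAt k k' x.2.1) : HD (fun y => k y.2.1) 0 k' x := by
  unfold HD
  have h1 : HasFDerivAt (fun y : N5 => y.2.1) dr x := dr.hasFDerivAt
  refine (h.comp_hasFDerivAt x h1).congr_fderiv ?_
  module

theorem fderiv_eq (h : HD F a b x) (X : N5) : fderiv ℝ F x X = a * X.1 + b * X.2.1 := by
  unfold HD at h
  rw [h.fderiv]
  simp

end HD

/-- The data of the example. -/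
structure Dat where
  H : ℝ → ℝ
  H1 : ℝ → ℝ
  H2 : ℝ → ℝ
  W : ℝ → ℝ
  ψ : ℝ → ℝ
  ψ1 : ℝ → ℝ
  dH : ∀ r, HasDerivAt H (H1 r) r
  dH1 : ∀ r, HasDerivAt H1 (H2 r) r
  dW : ∀ r, HasDerivAt W (W r * ψ r) r
  dψ : ∀ r, HasDerivAt ψ (ψ1 r) r
  sH : ContDiff ℝ ∞ H
  sW : ContDiff ℝ ∞ W
  one_le : ∀ r, 1 ≤ W r
  absH : ∀ r, |H r| ≤ 1 / 4
  absH1 : ∀ r, |H1 r| ≤ 1 / 4
  absH2 : ∀ r, |H2 r| ≤ 1 / 4
  lψ1 : ∀ r, 1 ≤ ψ1 r
  ode : ∀ r, H2 r + 3 * ψ r * H1 r = 4 * H r * (H r ^ 2 + 1)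

namespace Dat

variable (D : Dat)

theorem W_pos (r : ℝ) : 0 < D.W r := lt_of_lt_of_le one_pos (D.one_le r)

/-- conformal factor of the slices -/
noncomputable def f (x : N5) : ℝ := Real.cosh x.1 - D.H x.2.1 * Real.sinh x.1
noncomputable def ft (x : N5) : ℝ := Real.sinh x.1 - D.H x.2.1 * Real.cosh x.1
noncomputable def fr (x : N5) : ℝ := -(D.H1 x.2.1 * Real.sinh x.1)

theorem f_pos' (x : N5) : 3 / 4 ≤ D.f x := by
  unfold f
  have h1 := abs_le.mp (D.absH x.2.1)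
  have hc : 1 ≤ Real.cosh x.1 := Real.one_le_cosh _
  have hs : |Real.sinh x.1| ≤ Real.cosh x.1 := by
    rw [abs_le]
    constructor
    · have := Real.exp_pos x.1
      have h2 := Real.sinh_add_cosh x.1
      linarith
    · exact (Real.sinh_lt_cosh x.1).le
  have h3 : |D.H x.2.1 * Real.sinh x.1| ≤ 1 / 4 * Real.cosh x.1 := by
    rw [abs_mul]
    exact mul_le_mul (D.absH _) hs (abs_nonneg _) (by norm_num)
  have h4 := (abs_le.mp h3).2
  linarith

theorem f_pos (x : N5) : 0 < D.f x := lt_of_lt_of_le (by norm_num) (D.f_pos' x)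

theorem f_ne (x : N5) : D.f x ≠ 0 := (D.f_pos x).ne'

theorem f_sq (x : N5) : D.f x ^ 2 - D.ft x ^ 2 = 1 - D.H x.2.1 ^ 2 := by
  have := Real.cosh_sq x.1
  unfold f ft
  nlinarith [this]

theorem hd_f (x : N5) : HD D.f (D.ft x) (D.fr x) x := by
  refine ((HD.ofT (Real.hasDerivAt_cosh x.1)).sub
    ((HD.ofR (D.dH x.2.1)).mul (HD.ofT (Real.hasDerivAt_sinh x.1)))).congr ?_ ?_
  · unfold ft; ring
  · unfold fr; ring

theorem hd_ft (x : N5) : HD D.ft (D.f x) (-(D.H1 x.2.1 * Real.cosh x.1)) x := by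
  refine ((HD.ofT (Real.hasDerivAt_sinh x.1)).sub
    ((HD.ofR (D.dH x.2.1)).mul (HD.ofT (Real.hasDerivAt_cosh x.1)))).congr ?_ ?_
  · unfold f; ring
  · ring

theorem hd_fr (x : N5) : HD D.fr (-(D.H1 x.2.1 * Real.cosh x.1))
    (-(D.H2 x.2.1 * Real.sinh x.1)) x := by
  refine ((HD.ofR (D.dH1 x.2.1)).mul (HD.ofT (Real.hasDerivAt_sinh x.1))).neg.congr ?_ ?_
  · ring
  · ring

/-- `f f_t` -/
theorem hd_fft (x : N5) : HD (fun y => D.f y * D.ft y) (D.ft x ^ 2 + D.f x ^ 2)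
    (2 * D.fr x * D.ft x - D.H1 x.2.1) x := by
  refine ((D.hd_f x).mul (D.hd_ft x)).congr ?_ ?_
  · ring
  · have := Real.cosh_sq x.1
    unfold f ft fr
    linear_combination (-(D.H1 x.2.1)) * this

/-- `f_t / f` -/
theorem hd_p (x : N5) : HD (fun y => D.ft y / D.f y) (1 - (D.ft x / D.f x) ^ 2)
    (-(D.H1 x.2.1) / D.f x ^ 2) x := by
  have hf := D.f_ne x
  refine ((D.hd_ft x).div (D.hd_f x) hf).congr ?_ ?_
  · field_simp
  · field_simp
    have := Real.cosh_sq x.1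
    unfold f ft fr
    linear_combination (-(D.H1 x.2.1)) * this

/-- `f_r / f` -/
theorem hd_q (x : N5) : HD (fun y => D.fr y / D.f y) (-(D.H1 x.2.1) / D.f x ^ 2)
    (-(D.H2 x.2.1 * Real.sinh x.1) / D.f x - (D.fr x / D.f x) ^ 2) x := by
  have hf := D.f_ne x
  refine ((D.hd_fr x).div (D.hd_f x) hf).congr ?_ ?_
  · field_simp
    have := Real.cosh_sq x.1
    unfold f ft fr
    linear_combination (-(D.H1 x.2.1)) * this
  · field_simp

theorem hd_ψ (x : N5) : HD (fun y => D.ψ y.2.1) 0 (D.ψ1 x.2.1) x := HD.ofR (D.dψ _)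

theorem hd_W2 (x : N5) : HD (fun y => D.W y.2.1 ^ 2) 0 (2 * D.W x.2.1 ^ 2 * D.ψ x.2.1) x := by
  have h : HD (fun y => D.W y.2.1) 0 (D.W x.2.1 * D.ψ x.2.1) x := HD.ofR (D.dW _)
  have h2 := h.mul h
  simp only [← pow_two] at h2
  refine h2.congr ?_ ?_ <;> ring

/-- the metric `g = dr² + W(r)² |dy|²` on `M4` -/
noncomputable def gform (y : M4) : LinearMap.BilinForm ℝ M4 :=
  LinearMap.mk₂ ℝ (fun U V => U.1 * V.1 + D.W y.1 ^ 2 * inner ℝ U.2 V.2)
    (fun U U' V => by simp only [Prod.fst_add, Prod.snd_add, inner_add_left]; ring)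
    (fun k U V => by simp only [Prod.smul_fst, Prod.smul_snd, real_inner_smul_left, smul_eq_mul]; ring)
    (fun U V V' => by simp only [Prod.fst_add, Prod.snd_add, inner_add_right]; ring)
    (fun k U V => by simp only [Prod.smul_fst, Prod.smul_snd, real_inner_smul_right, smul_eq_mul]; ring)

theorem gform_apply (y U V : M4) :
    D.gform y U V = U.1 * V.1 + D.W y.1 ^ 2 * inner ℝ U.2 V.2 := rfl

/-- the metric `h = dt² + f² g` on `N5` -/
noncomputable def hform (x : N5) : LinearMap.BilinForm ℝ N5 :=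
  LinearMap.mk₂ ℝ (fun U V => U.1 * V.1 +
      D.f x ^ 2 * (U.2.1 * V.2.1 + D.W x.2.1 ^ 2 * inner ℝ U.2.2 V.2.2))
    (fun U U' V => by simp only [Prod.fst_add, Prod.snd_add, inner_add_left]; ring)
    (fun k U V => by simp only [Prod.smul_fst, Prod.smul_snd, real_inner_smul_left, smul_eq_mul]; ring)
    (fun U V V' => by simp only [Prod.fst_add, Prod.snd_add, inner_add_right]; ring)
    (fun k U V => by simp only [Prod.smul_fst, Prod.smul_snd, real_inner_smul_right, smul_eq_mul]; ring)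

theorem hform_apply (x U V : N5) : D.hform x U V = U.1 * V.1 +
      D.f x ^ 2 * (U.2.1 * V.2.1 + D.W x.2.1 ^ 2 * inner ℝ U.2.2 V.2.2) := rfl

theorem contDiff_f : ContDiff ℝ ∞ D.f := by
  unfold f
  have h1 : ContDiff ℝ ∞ (fun x : N5 => D.H x.2.1) := D.sH.comp (by fun_prop)
  have h2 : ContDiff ℝ ∞ (fun x : N5 => Real.cosh x.1) := Real.contDiff_cosh.comp (by fun_prop)
  have h3 : ContDiff ℝ ∞ (fun x : N5 => Real.sinh x.1) := Real.contDiff_sinh.comp (by fun_prop)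
  exact h2.sub (h1.mul h3)

/-- the Riemannian metric of the hypersurface -/
noncomputable def g : RMetric M4 where
  form := D.gform
  symm' x U V := by rw [gform_apply, gform_apply, real_inner_comm]; ring
  pos' x U hU := by
    rw [gform_apply, real_inner_self_eq_norm_sq]
    have hW := D.W_pos x.1
    by_cases h1 : U.1 = 0
    · have h2 : U.2 ≠ 0 := fun h2 => hU (Prod.ext h1 h2)
      have : 0 < ‖U.2‖ := norm_pos_iff.mpr h2
      have h3 : 0 < D.W x.1 ^ 2 * ‖U.2‖ ^ 2 := by positivity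
      nlinarith [mul_self_nonneg U.1]
    · have h3 : 0 < U.1 * U.1 := mul_self_pos.mpr h1
      have h4 : 0 ≤ D.W x.1 ^ 2 * ‖U.2‖ ^ 2 := by positivity
      linarith
  smooth' U V := by
    simp only [gform_apply]
    have h1 : ContDiff ℝ ∞ (fun x : M4 => D.W x.1) := D.sW.comp contDiff_fst
    exact contDiff_const.add ((h1.pow 2).mul contDiff_const)

/-- the Riemannian metric of the ambient manifold -/
noncomputable def h : RMetric N5 where
  form := D.hform
  symm' x U V := by rw [hform_apply, hform_apply, real_inner_comm]; ring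
  pos' x U hU := by
    rw [hform_apply, real_inner_self_eq_norm_sq]
    have hW := D.W_pos x.2.1
    have hf := D.f_pos x
    have h4 : 0 ≤ D.W x.2.1 ^ 2 * ‖U.2.2‖ ^ 2 := by positivity
    by_cases h1 : U.1 = 0
    · have h2 : 0 < U.2.1 * U.2.1 + D.W x.2.1 ^ 2 * ‖U.2.2‖ ^ 2 := by
        by_cases h3 : U.2.1 = 0
        · have h5 : U.2.2 ≠ 0 := fun h2 => hU (Prod.ext h1 (Prod.ext h3 h2))
          have : 0 < ‖U.2.2‖ := norm_pos_iff.mpr h5
          have h3 : 0 < D.W x.2.1 ^ 2 * ‖U.2.2‖ ^ 2 := by positivity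
          nlinarith [mul_self_nonneg U.2.1]
        · have h3 : 0 < U.2.1 * U.2.1 := mul_self_pos.mpr h3
          linarith
      have := mul_pos (pow_pos hf 2) h2
      nlinarith [mul_self_nonneg U.1]
    · have h3 : 0 < U.1 * U.1 := mul_self_pos.mpr h1
      have : 0 ≤ D.f x ^ 2 * (U.2.1 * U.2.1 + D.W x.2.1 ^ 2 * ‖U.2.2‖ ^ 2) :=
        mul_nonneg (by positivity) (add_nonneg (mul_self_nonneg _) h4)
      linarith
  smooth' U V := by
    simp only [hform_apply]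
    have h1 : ContDiff ℝ ∞ (fun x : N5 => D.W x.2.1) := D.sW.comp (by fun_prop)
    exact contDiff_const.add ((D.contDiff_f.pow 2).mul
      (contDiff_const.add ((h1.pow 2).mul contDiff_const)))

theorem h_form (x U V : N5) : D.h.form x U V = U.1 * V.1 +
      D.f x ^ 2 * (U.2.1 * V.2.1 + D.W x.2.1 ^ 2 * inner ℝ U.2.2 V.2.2) := rfl

theorem g_form (y U V : M4) :
    D.g.form y U V = U.1 * V.1 + D.W y.1 ^ 2 * inner ℝ U.2 V.2 := rfl

theorem fderiv_g (y U V X : M4) : fderiv ℝ (fun z => D.g.form z U V) y X =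
    2 * D.W y.1 ^ 2 * D.ψ y.1 * X.1 * inner ℝ U.2 V.2 := by
  simp only [g_form]
  have h0 : HasDerivAt (fun r => U.1 * V.1 + D.W r ^ 2 * inner ℝ U.2 V.2)
      (2 * D.W y.1 ^ 2 * D.ψ y.1 * inner ℝ U.2 V.2) y.1 := by
    have := (((D.dW y.1).pow 2).mul_const (inner ℝ U.2 V.2)).const_add (U.1 * V.1)
    refine this.congr_deriv ?_
    push_cast
    ring
  have h1 : HasFDerivAt (fun z : M4 => z.1) (ContinuousLinearMap.fst ℝ ℝ P) y :=
    (ContinuousLinearMap.fst ℝ ℝ P).hasFDerivAt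
  have h2 := h0.comp_hasFDerivAt y h1
  have h3 : fderiv ℝ (fun z : M4 => U.1 * V.1 + D.W z.1 ^ 2 * inner ℝ U.2 V.2) y =
    (2 * D.W y.1 ^ 2 * D.ψ y.1 * inner ℝ U.2 V.2) • ContinuousLinearMap.fst ℝ ℝ P := h2.fderiv
  rw [h3]
  simp only [_root_.smul_apply, ContinuousLinearMap.coe_fst', smul_eq_mul]
  ring

theorem Gam_g (y U V : M4) : D.g.Gam y U V =
    (-(D.ψ y.1 * (D.W y.1 ^ 2 * inner ℝ U.2 V.2)),
      (D.ψ y.1 * U.1) • V.2 + (D.ψ y.1 * V.1) • U.2) := by
  apply RMetric.Gam_eq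
  intro w
  rw [fderiv_g, fderiv_g, fderiv_g, g_form]
  simp only [inner_add_left, real_inner_smul_left]
  ring

theorem fderiv_h (x U V X : N5) : fderiv ℝ (fun z => D.h.form z U V) x X =
    2 * D.f x * (D.ft x * X.1 + D.fr x * X.2.1) *
        (U.2.1 * V.2.1 + D.W x.2.1 ^ 2 * inner ℝ U.2.2 V.2.2)
      + D.f x ^ 2 * (2 * D.W x.2.1 ^ 2 * D.ψ x.2.1 * X.2.1 * inner ℝ U.2.2 V.2.2) := by
  simp only [h_form]
  have h1 : HD (fun z => U.1 * V.1 + (D.f z * D.f z) *
      (U.2.1 * V.2.1 + D.W z.2.1 ^ 2 * inner ℝ U.2.2 V.2.2)) _ _ x :=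
    (HD.const _).add (((D.hd_f x).mul (D.hd_f x)).mul
      ((HD.const _).add ((D.hd_W2 x).mul (HD.const _))))
  simp only [← pow_two] at h1
  rw [h1.fderiv_eq]
  ring

theorem Gam_h (x U V : N5) : D.h.Gam x U V =
    (-((D.f x * D.ft x) * (U.2.1 * V.2.1 + D.W x.2.1 ^ 2 * inner ℝ U.2.2 V.2.2)),
      (D.ft x / D.f x) * (U.1 * V.2.1 + V.1 * U.2.1) + (D.fr x / D.f x) * (U.2.1 * V.2.1)
        - (D.fr x / D.f x + D.ψ x.2.1) * (D.W x.2.1 ^ 2 * inner ℝ U.2.2 V.2.2),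
      ((D.ft x / D.f x) * U.1 + (D.fr x / D.f x + D.ψ x.2.1) * U.2.1) • V.2.2
        + ((D.ft x / D.f x) * V.1 + (D.fr x / D.f x + D.ψ x.2.1) * V.2.1) • U.2.2) := by
  apply RMetric.Gam_eq
  intro w
  have hf := D.f_ne x
  rw [fderiv_h, fderiv_h, fderiv_h, h_form]
  simp only [inner_add_left, real_inner_smul_left]
  field_simp
  ring

end Dat

end Pool.Agent.W555.Ex
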