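import Pool.Agent.W555.Ex

set_option autoImplicit false

namespace Pool.Agent.W555.Ex

open scoped ContDiff Topology
open Pool.Agent.W555.RG

namespace Dat

variable (D : Dat)

/-- derivative of `f_t / f` in direction `X` -/
noncomputable def dp (x X : N5) : ℝ :=
  (1 - (D.ft x / D.f x) ^ 2) * X.1 + (-(D.H1 x.2.1) / D.f x ^ 2) * X.2.1

/-- derivative of `f_r / f + ψ` in direction `X` -/
noncomputable def ds (x X : N5) : ℝ :=
  (-(D.H1 x.2.1) / D.f x ^ 2) * X.1 +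
    (-(D.H2 x.2.1 * Real.sinh x.1) / D.f x - (D.fr x / D.f x) ^ 2 + D.ψ1 x.2.1) * X.2.1

/-- derivative of `f_r / f` in direction `X` -/
noncomputable def dq (x X : N5) : ℝ :=
  (-(D.H1 x.2.1) / D.f x ^ 2) * X.1 +
    (-(D.H2 x.2.1 * Real.sinh x.1) / D.f x - (D.fr x / D.f x) ^ 2) * X.2.1

/-- derivative of `f f_t` in direction `X` -/
noncomputable def dm (x X : N5) : ℝ :=
  (D.ft x ^ 2 + D.f x ^ 2) * X.1 + (2 * D.fr x * D.ft x - D.H1 x.2.1) * X.2.1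

theorem fderiv_Gam (x U V X : N5) : fderiv ℝ (fun y => D.h.Gam y U V) x X =
    (-(D.dm x X * (U.2.1 * V.2.1 + D.W x.2.1 ^ 2 * inner ℝ U.2.2 V.2.2)
        + D.f x * D.ft x * (2 * D.W x.2.1 ^ 2 * D.ψ x.2.1 * X.2.1 * inner ℝ U.2.2 V.2.2)),
      D.dp x X * (U.1 * V.2.1 + V.1 * U.2.1) + D.dq x X * (U.2.1 * V.2.1)
        - D.ds x X * (D.W x.2.1 ^ 2 * inner ℝ U.2.2 V.2.2)
        - (D.fr x / D.f x + D.ψ x.2.1) *
          (2 * D.W x.2.1 ^ 2 * D.ψ x.2.1 * X.2.1 * inner ℝ U.2.2 V.2.2),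
      (D.dp x X * U.1 + D.ds x X * U.2.1) • V.2.2
        + (D.dp x X * V.1 + D.ds x X * V.2.1) • U.2.2) := by
  simp only [Gam_h]
  have h1 := ((D.hd_fft x).mul ((HD.const (U.2.1 * V.2.1)).add
    ((D.hd_W2 x).mul (HD.const (inner ℝ U.2.2 V.2.2))))).neg
  have h2 := (((D.hd_p x).mul (HD.const (U.1 * V.2.1 + V.1 * U.2.1))).add
    ((D.hd_q x).mul (HD.const (U.2.1 * V.2.1)))).sub
    (((D.hd_q x).add (D.hd_ψ x)).mul ((D.hd_W2 x).mul (HD.const (inner ℝ U.2.2 V.2.2))))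
  have h3 := ((D.hd_p x).mul (HD.const U.1)).add
    (((D.hd_q x).add (D.hd_ψ x)).mul (HD.const U.2.1))
  have h4 := ((D.hd_p x).mul (HD.const V.1)).add
    (((D.hd_q x).add (D.hd_ψ x)).mul (HD.const V.2.1))
  unfold HD at h1 h2 h3 h4
  have h5 := (h3.smul_const V.2.2).add (h4.smul_const U.2.2)
  have h6 := h1.prodMk (h2.prodMk h5)
  have h7 := h6.fderiv
  simp only [Pi.add_def] at h7
  rw [h7]
  unfold dm dp dq ds
  refine Prod.ext ?_ (Prod.ext ?_ ?_)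
  · simp
    ring
  · simp
    ring
  · simp
    module

/-- The curvature form, computed. -/
theorem curv_form (x U V : N5) :
    D.h.form x (D.h.curv x U V V) U =
      -(D.f x ^ 2 * (U.1 * V.2.1 - U.2.1 * V.1) ^ 2)
      - D.f x ^ 2 * D.W x.2.1 ^ 2 *
        ((V.1 ^ 2 * inner ℝ U.2.2 U.2.2 - 2 * V.1 * U.1 * inner ℝ U.2.2 V.2.2
            + U.1 ^ 2 * inner ℝ V.2.2 V.2.2)
          - 2 * (D.H1 x.2.1 / D.f x ^ 2) * (V.1 * V.2.1 * inner ℝ U.2.2 U.2.2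
            - (V.1 * U.2.1 + U.1 * V.2.1) * inner ℝ U.2.2 V.2.2
            + U.1 * U.2.1 * inner ℝ V.2.2 V.2.2)
          + ((-(D.H2 x.2.1 * Real.sinh x.1)) / D.f x + D.fr x / D.f x * D.ψ x.2.1
              + D.ψ1 x.2.1 + D.ψ x.2.1 ^ 2 + D.ft x ^ 2 - (D.fr x / D.f x) ^ 2) *
            (V.2.1 ^ 2 * inner ℝ U.2.2 U.2.2 - 2 * V.2.1 * U.2.1 * inner ℝ U.2.2 V.2.2
            + U.2.1 ^ 2 * inner ℝ V.2.2 V.2.2))
      - D.f x ^ 2 * D.W x.2.1 ^ 4 * (D.ft x ^ 2 + (D.fr x / D.f x + D.ψ x.2.1) ^ 2) *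
        (inner ℝ U.2.2 U.2.2 * inner ℝ V.2.2 V.2.2 - inner ℝ U.2.2 V.2.2 ^ 2) := by
  have hf := D.f_ne x
  unfold RMetric.curv
  rw [fderiv_Gam, fderiv_Gam]
  simp only [Gam_h, h_form]
  unfold dm dp dq ds
  simp only [Prod.fst_add, Prod.snd_add, Prod.fst_sub, Prod.snd_sub, inner_add_left,
    inner_add_right, inner_sub_left, real_inner_smul_left, real_inner_smul_right]
  rw [real_inner_comm U.2.2 V.2.2]
  generalize (inner ℝ U.2.2 V.2.2 : ℝ) = k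
  generalize (inner ℝ U.2.2 U.2.2 : ℝ) = kU
  generalize (inner ℝ V.2.2 V.2.2 : ℝ) = kV
  field_simp
  ring

theorem abs_sinh_div (x : N5) : |Real.sinh x.1 / D.f x| ≤ 4 / 3 := by
  have hf := D.f_pos x
  rw [abs_div, abs_of_pos hf, div_le_iff₀ hf]
  unfold f
  have h1 := abs_le.mp (D.absH x.2.1)
  have hs : |Real.sinh x.1| ≤ Real.cosh x.1 := by
    rw [abs_le]
    constructor
    · have := Real.exp_pos x.1
      have h2 := Real.sinh_add_cosh x.1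
      linarith
    · exact (Real.sinh_lt_cosh x.1).le
  have h3 : |D.H x.2.1 * Real.sinh x.1| ≤ 1 / 4 * |Real.sinh x.1| := by
    rw [abs_mul]
    exact mul_le_mul_of_nonneg_right (D.absH _) (abs_nonneg _)
  have h4 := (abs_le.mp h3).2
  linarith

theorem key_ineq (x : N5) :
    (D.H1 x.2.1 / D.f x ^ 2) ^ 2 ≤
      (-(D.H2 x.2.1 * Real.sinh x.1)) / D.f x + D.fr x / D.f x * D.ψ x.2.1
              + D.ψ1 x.2.1 + D.ψ x.2.1 ^ 2 + D.ft x ^ 2 - (D.fr x / D.f x) ^ 2 := by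
  have hf := D.f_pos x
  have hf' := D.f_pos' x
  have hS := D.abs_sinh_div x
  set S := Real.sinh x.1 / D.f x with hSdef
  have e1 : (-(D.H2 x.2.1 * Real.sinh x.1)) / D.f x = -(D.H2 x.2.1 * S) := by
    rw [hSdef]; ring
  have e2 : D.fr x / D.f x = -(D.H1 x.2.1 * S) := by
    rw [hSdef]; unfold fr; ring
  rw [e1, e2]
  have hH1 := D.absH1 x.2.1
  have hH2 := D.absH2 x.2.1
  have hψ1 := D.lψ1 x.2.1
  have b1 : |D.H2 x.2.1 * S| ≤ 1 / 3 := by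
    rw [abs_mul]
    calc |D.H2 x.2.1| * |S| ≤ (1 / 4) * (4 / 3) :=
          mul_le_mul hH2 hS (abs_nonneg _) (by norm_num)
      _ = 1 / 3 := by norm_num
  have b2 : |D.H1 x.2.1 * S| ≤ 1 / 3 := by
    rw [abs_mul]
    calc |D.H1 x.2.1| * |S| ≤ (1 / 4) * (4 / 3) :=
          mul_le_mul hH1 hS (abs_nonneg _) (by norm_num)
      _ = 1 / 3 := by norm_num
  have b1' := (abs_le.mp b1).2
  have b2' : (D.H1 x.2.1 * S) ^ 2 ≤ 1 / 9 := by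
    have := pow_le_pow_left₀ (abs_nonneg _) b2 2
    rw [sq_abs] at this
    linarith
  have b3 : |D.H1 x.2.1 / D.f x ^ 2| ≤ 4 / 9 := by
    have h2 : 9 / 16 ≤ D.f x ^ 2 := by nlinarith
    rw [abs_div, abs_of_pos (pow_pos hf 2), div_le_iff₀ (pow_pos hf 2)]
    linarith
  have b3' : (D.H1 x.2.1 / D.f x ^ 2) ^ 2 ≤ 16 / 81 := by
    have := pow_le_pow_left₀ (abs_nonneg _) b3 2
    rw [sq_abs] at this
    linarith
  have hft : 0 ≤ D.ft x ^ 2 := sq_nonneg _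
  nlinarith [sq_nonneg (D.ψ x.2.1 - D.H1 x.2.1 * S / 2)]

theorem nonpos : D.h.Nonpos := by
  intro x U V
  rw [curv_form]
  have hf := D.f_pos x
  have hW := D.W_pos x.2.1
  have hkey := D.key_ineq x
  set E := (-(D.H2 x.2.1 * Real.sinh x.1)) / D.f x + D.fr x / D.f x * D.ψ x.2.1
              + D.ψ1 x.2.1 + D.ψ x.2.1 ^ 2 + D.ft x ^ 2 - (D.fr x / D.f x) ^ 2 with hE
  set ε := D.H1 x.2.1 / D.f x ^ 2 with hε
  have hX : 0 ≤ inner ℝ ((U.1 • V.2.2 - V.1 • U.2.2) - ε • (U.2.1 • V.2.2 - V.2.1 • U.2.2))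
      ((U.1 • V.2.2 - V.1 • U.2.2) - ε • (U.2.1 • V.2.2 - V.2.1 • U.2.2)) :=
    real_inner_self_nonneg
  have hZ : 0 ≤ inner ℝ (U.2.1 • V.2.2 - V.2.1 • U.2.2) (U.2.1 • V.2.2 - V.2.1 • U.2.2) :=
    real_inner_self_nonneg
  have hCS : 0 ≤ inner ℝ U.2.2 U.2.2 * inner ℝ V.2.2 V.2.2 - (inner ℝ U.2.2 V.2.2 : ℝ) ^ 2 := by
    have := real_inner_mul_inner_self_le U.2.2 V.2.2
    nlinarith
  simp only [inner_sub_left, inner_sub_right, real_inner_smul_left, real_inner_smul_right] at hX hZ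
  rw [real_inner_comm U.2.2 V.2.2] at hX hZ
  generalize (inner ℝ U.2.2 V.2.2 : ℝ) = k at *
  generalize (inner ℝ U.2.2 U.2.2 : ℝ) = kU at *
  generalize (inner ℝ V.2.2 V.2.2 : ℝ) = kV at *
  have h1 : 0 ≤ (V.1 ^ 2 * kU - 2 * V.1 * U.1 * k + U.1 ^ 2 * kV)
          - 2 * ε * (V.1 * V.2.1 * kU - (V.1 * U.2.1 + U.1 * V.2.1) * k
            + U.1 * U.2.1 * kV)
          + E * (V.2.1 ^ 2 * kU - 2 * V.2.1 * U.2.1 * k + U.2.1 ^ 2 * kV) := by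
    have h2 : 0 ≤ (E - ε ^ 2) * (V.2.1 ^ 2 * kU - 2 * V.2.1 * U.2.1 * k + U.2.1 ^ 2 * kV) := by
      apply mul_nonneg (by linarith)
      linarith
    linarith
  have h3 : 0 ≤ D.f x ^ 2 * D.W x.2.1 ^ 2 * ((V.1 ^ 2 * kU - 2 * V.1 * U.1 * k + U.1 ^ 2 * kV)
          - 2 * ε * (V.1 * V.2.1 * kU - (V.1 * U.2.1 + U.1 * V.2.1) * k
            + U.1 * U.2.1 * kV)
          + E * (V.2.1 ^ 2 * kU - 2 * V.2.1 * U.2.1 * k + U.2.1 ^ 2 * kV)) :=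
    mul_nonneg (by positivity) h1
  have h4 : 0 ≤ D.f x ^ 2 * (U.1 * V.2.1 - U.2.1 * V.1) ^ 2 := by positivity
  have h5 : 0 ≤ D.f x ^ 2 * D.W x.2.1 ^ 4 * (D.ft x ^ 2 + (D.fr x / D.f x + D.ψ x.2.1) ^ 2) *
      (kU * kV - k ^ 2) := mul_nonneg (by positivity) hCS
  linarith

end Dat

end Pool.Agent.W555.Ex
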