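import Pool.Agent.W555.Ex2

set_option autoImplicit false

namespace Pool.Agent.W555.RG

section Frames

variable {V : Type} [NormedAddCommGroup V] [NormedSpace ℝ V]

theorem RMetric.expand [FiniteDimensional ℝ V] (g : RMetric V) (x : V)
    (e : Fin (Module.finrank ℝ V) → V) (he : g.IsOrtho x e) (v : V) :
    ∑ i, g.form x v (e i) • e i = v := by
  have hli : LinearIndependent ℝ e := by
    rw [Fintype.linearIndependent_iff]
    intro a ha i
    have h1 : g.form x (∑ j, a j • e j) (e i) = 0 := by rw [ha]; simp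
    rw [LinearMap.BilinForm.sum_left] at h1
    have h2 : ∀ j, g.form x (a j • e j) (e i) = if j = i then a j else 0 := by
      intro j
      rw [LinearMap.BilinForm.smul_left, he j i]
      simp
    rw [Finset.sum_congr rfl (fun j _ => h2 j)] at h1
    simpa using h1
  let b := basisOfLinearIndependentOfCardEqFinrank' (b := e) hli (by simp)
  have hb : ∀ i, b i = e i := fun i => by simp [b]
  have hv : ∑ i, b.repr v i • e i = v := by
    conv_rhs => rw [← b.sum_repr v]
    exact Finset.sum_congr rfl fun i _ => by rw [hb]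
  have hc : ∀ i, g.form x v (e i) = b.repr v i := by
    intro i
    conv_lhs => rw [← hv]
    rw [LinearMap.BilinForm.sum_left]
    have h2 : ∀ j, g.form x (b.repr v j • e j) (e i) = if j = i then b.repr v j else 0 := by
      intro j
      rw [LinearMap.BilinForm.smul_left, he j i]
      simp
    rw [Finset.sum_congr rfl (fun j _ => h2 j)]
    simp
  conv_rhs => rw [← hv]
  exact Finset.sum_congr rfl fun i _ => by rw [hc]

theorem RMetric.frame_ortho (g : RMetric V) (x : V)
    (h : ∃ e, g.IsOrtho x e) : g.IsOrtho x (g.frame x) :=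
  Classical.epsilon_spec h

end Frames

end Pool.Agent.W555.RG

namespace Pool.Agent.W555.Ex

open scoped ContDiff Topology
open Pool.Agent.W555.RG

theorem finrank_M4 : Module.finrank ℝ M4 = 4 := by
  simp [M4, P]

namespace Dat

variable (D : Dat)

theorem exists_ortho (y : M4) : ∃ e, D.g.IsOrtho y e := by
  have hW := D.W_pos y.1
  let b : Fin 4 → M4 := Fin.cons ((1 : ℝ), (0 : P))
    (fun j : Fin 3 => ((0 : ℝ), (D.W y.1)⁻¹ • EuclideanSpace.single j (1 : ℝ)))
  have hb : ∀ i j, D.g.form y (b i) (b j) = if i = j then 1 else 0 := by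
    intro i j
    refine Fin.cases ?_ (fun i => ?_) i
    · refine Fin.cases ?_ (fun j => ?_) j
      · simp [b, g_form]
      · simp [b, g_form, (Fin.succ_ne_zero j).symm]
    · refine Fin.cases ?_ (fun j => ?_) j
      · simp [b, g_form]
      · simp only [b, g_form, Fin.cons_succ, real_inner_smul_left, real_inner_smul_right,
          EuclideanSpace.inner_single_left, Fin.succ_inj]
        by_cases hij : i = j
        · subst hij
          simp
          field_simp
        · simp [hij]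
  refine ⟨fun i => b (Fin.cast finrank_M4 i), fun i j => ?_⟩
  rw [hb]
  simp

theorem ortho (y : M4) : D.g.IsOrtho y (D.g.frame y) := D.g.frame_ortho y (D.exists_ortho y)

theorem sum_fst_smul (y : M4) :
    ∑ i, (D.g.frame y i).1 • D.g.frame y i = ((1 : ℝ), (0 : P)) := by
  have h := D.g.expand y _ (D.ortho y) ((1 : ℝ), (0 : P))
  simpa [g_form] using h

theorem sum_11 (y : M4) : ∑ i, (D.g.frame y i).1 * (D.g.frame y i).1 = 1 := by
  have h := congrArg Prod.fst (D.sum_fst_smul y)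
  simpa [Prod.fst_sum] using h

theorem sum_12 (y : M4) : ∑ i, (D.g.frame y i).1 • (D.g.frame y i).2 = 0 := by
  have h := congrArg Prod.snd (D.sum_fst_smul y)
  simpa [Prod.snd_sum] using h

theorem sum_g (y : M4) : ∑ i, ((D.g.frame y i).1 * (D.g.frame y i).1 +
    D.W y.1 ^ 2 * inner ℝ (D.g.frame y i).2 (D.g.frame y i).2) = 4 := by
  have h : ∀ i, (D.g.frame y i).1 * (D.g.frame y i).1 +
      D.W y.1 ^ 2 * inner ℝ (D.g.frame y i).2 (D.g.frame y i).2 = 1 := by
    intro i
    have := D.ortho y i i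
    rw [g_form] at this
    simpa using this
  simp only [h]
  simp

theorem sum_22 (y : M4) : ∑ i, D.W y.1 ^ 2 *
    inner ℝ (D.g.frame y i).2 (D.g.frame y i).2 = 3 := by
  have h := D.sum_g y
  rw [Finset.sum_add_distrib, D.sum_11] at h
  linarith

/-- the inclusion of the hypersurface `t = 0` -/
def φ : M4 → N5 := fun y => (0, y)

theorem hasFDerivAt_φ (y : M4) : HasFDerivAt φ (ContinuousLinearMap.inr ℝ ℝ M4) y :=
  (ContinuousLinearMap.inr ℝ ℝ M4).hasFDerivAt

theorem fderiv_φ (y v : M4) : fderiv ℝ φ y v = (0, v) := by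
  rw [(hasFDerivAt_φ y).fderiv]; rfl

@[simp] theorem f_φ (y : M4) : D.f (φ y) = 1 := by simp [f, φ]
@[simp] theorem ft_φ (y : M4) : D.ft (φ y) = -D.H y.1 := by simp [ft, φ]
@[simp] theorem fr_φ (y : M4) : D.fr (φ y) = 0 := by simp [fr, φ]
@[simp] theorem φ_fst (y : M4) : (φ y).1 = 0 := rfl
@[simp] theorem φ_snd (y : M4) : (φ y).2 = y := rfl

theorem isometric : IsIsometricImmersion D.g D.h φ := by
  refine ⟨by unfold φ; fun_prop, fun x u v => ?_⟩
  rw [fderiv_φ, fderiv_φ, g_form, h_form]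
  simp

theorem Gam_φ (y : M4) (U V : N5) : D.h.Gam (φ y) U V =
    (D.H y.1 * (U.2.1 * V.2.1 + D.W y.1 ^ 2 * inner ℝ U.2.2 V.2.2),
      -(D.H y.1 * (U.1 * V.2.1 + V.1 * U.2.1)) - D.ψ y.1 * (D.W y.1 ^ 2 * inner ℝ U.2.2 V.2.2),
      (-(D.H y.1 * U.1) + D.ψ y.1 * U.2.1) • V.2.2
        + (-(D.H y.1 * V.1) + D.ψ y.1 * V.2.1) • U.2.2) := by
  rw [Gam_h]
  simp

theorem nablaD_φ (y u v : M4) : nablaD D.g D.h φ y u v =
    (D.H y.1 * (u.1 * v.1 + D.W y.1 ^ 2 * inner ℝ u.2 v.2), 0) := by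
  unfold nablaD
  simp only [fderiv_φ, Gam_φ, Gam_g]
  refine Prod.ext ?_ (Prod.ext ?_ ?_)
  · simp
  · simp
  · simp

theorem tension_φ (y : M4) : tension D.g D.h φ y = (4 * D.H y.1, 0) := by
  unfold tension RMetric.trace
  simp only [nablaD_φ]
  refine Prod.ext ?_ ?_
  · simp only [Prod.fst_sum]
    rw [← Finset.mul_sum, D.sum_g]
    ring
  · simp [Prod.snd_sum]

theorem hasFDerivAt_R {k : ℝ → ℝ} {k' : ℝ} (y : M4) (h : HasDerivAt k k' y.1) :
    HasFDerivAt (fun z : M4 => k z.1) (k' • ContinuousLinearMap.fst ℝ ℝ P) y := by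
  have h1 : HasFDerivAt (fun z : M4 => z.1) (ContinuousLinearMap.fst ℝ ℝ P) y :=
    (ContinuousLinearMap.fst ℝ ℝ P).hasFDerivAt
  exact h.comp_hasFDerivAt y h1

theorem covD_tension (y v : M4) : covD D.h φ (tension D.g D.h φ) y v =
    (4 * D.H1 y.1 * v.1, -(4 * D.H y.1 ^ 2 * v.1), -(4 * D.H y.1 ^ 2) • v.2) := by
  unfold covD
  have h0 : tension D.g D.h φ = fun z => (4 * D.H z.1, 0) := funext fun z => D.tension_φ z
  rw [h0]
  have h1 : HasFDerivAt (fun z : M4 => ((4 * D.H z.1, 0) : N5)) _ y :=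
    (hasFDerivAt_R y ((D.dH y.1).const_mul 4)).prodMk (hasFDerivAt_const _ _)
  rw [h1.fderiv, fderiv_φ, Gam_φ]
  refine Prod.ext ?_ (Prod.ext ?_ ?_)
  · simp
  · simp
    ring
  · simp
    congr 1
    ring

theorem covD2_tension (y u v : M4) :
    covD D.h φ (fun z => covD D.h φ (tension D.g D.h φ) z v) y u
      - covD D.h φ (tension D.g D.h φ) y (D.g.Gam y u v) =
    (4 * D.H2 y.1 * (u.1 * v.1) - 4 * D.H y.1 ^ 3 * (u.1 * v.1 + D.W y.1 ^ 2 * inner ℝ u.2 v.2)
        + 4 * D.H1 y.1 * D.ψ y.1 * (D.W y.1 ^ 2 * inner ℝ u.2 v.2),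
      -(12 * D.H y.1 * D.H1 y.1 * (u.1 * v.1)),
      -(8 * D.H y.1 * D.H1 y.1) • (u.1 • v.2) - (4 * D.H y.1 * D.H1 y.1) • (v.1 • u.2)) := by
  simp only [covD_tension]
  unfold covD
  have h1 : HasFDerivAt (fun z : M4 => ((4 * D.H1 z.1 * v.1, -(4 * D.H z.1 ^ 2 * v.1),
      -(4 * D.H z.1 ^ 2) • v.2) : N5)) _ y :=
    (hasFDerivAt_R y (((D.dH1 y.1).const_mul 4).mul_const v.1)).prodMk
      ((hasFDerivAt_R y ((((D.dH y.1).pow 2).const_mul 4).mul_const v.1).neg).prodMk
        ((hasFDerivAt_R y (((D.dH y.1).pow 2).const_mul 4).neg).smul_const v.2))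
  rw [h1.fderiv, fderiv_φ, Gam_φ, Gam_g]
  refine Prod.ext ?_ (Prod.ext ?_ ?_)
  · simp [real_inner_smul_right]
    ring
  · simp [real_inner_smul_right]
    ring
  · simp
    module

theorem curv_φ (y u v : M4) (k : ℝ) :
    D.h.curv (φ y) (0, u) (k, 0) (0, v) =
      (k * (u.1 * v.1 + D.W y.1 ^ 2 * inner ℝ u.2 v.2),
        -(k * D.H1 y.1 * (D.W y.1 ^ 2 * inner ℝ u.2 v.2)),
        (k * D.H1 y.1) • (v.1 • u.2)) := by
  unfold RMetric.curv
  rw [fderiv_Gam, fderiv_Gam]
  simp only [Gam_φ]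
  unfold dm dp dq ds
  refine Prod.ext ?_ (Prod.ext ?_ ?_)
  · simp [inner_add_right, real_inner_smul_right]
    ring
  · simp [inner_add_right, real_inner_smul_right]
    ring
  · simp
    module

theorem bitension_φ (y : M4) : bitension D.g D.h φ y = 0 := by
  unfold bitension RMetric.trace
  simp only [covD2_tension, fderiv_φ, tension_φ, curv_φ]
  have h11 := D.sum_11 y
  have h12 := D.sum_12 y
  have h22 := D.sum_22 y
  have hg := D.sum_g y
  refine Prod.ext ?_ (Prod.ext ?_ ?_)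
  · simp only [Prod.fst_sub, Prod.fst_sum, Prod.fst_zero]
    rw [Finset.sum_add_distrib, Finset.sum_sub_distrib, ← Finset.mul_sum, ← Finset.mul_sum,
      ← Finset.mul_sum, ← Finset.mul_sum, h11, hg]
    rw [← Finset.mul_sum] at h22
    rw [← Finset.mul_sum, h22, hg]
    have := D.ode y.1
    linear_combination 4 * this
  · simp only [Prod.snd_sub, Prod.fst_sub, Prod.snd_sum, Prod.fst_sum, Prod.snd_zero,
      Prod.fst_zero]
    rw [Finset.sum_neg_distrib, Finset.sum_neg_distrib, ← Finset.mul_sum, ← Finset.mul_sum, h11]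
    rw [← Finset.mul_sum] at h22 ⊢
    rw [h22]
    ring
  · simp only [Prod.snd_sub, Prod.snd_sum, Prod.snd_zero]
    rw [Finset.sum_sub_distrib, ← Finset.smul_sum, ← Finset.smul_sum]
    simp only [h12]
    simp

end Dat

end Pool.Agent.W555.Ex
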