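import Pool.Agent.W555.Ex3

set_option autoImplicit false

namespace Pool.Agent.W555.Ex

open scoped ContDiff Topology
open Pool.Agent.W555.RG

/-- `√(1 + r²)` -/
noncomputable def rt (r : ℝ) : ℝ := Real.sqrt (1 + r ^ 2)

theorem rt_pos (r : ℝ) : 0 < rt r := Real.sqrt_pos.mpr (by positivity)
theorem rt_sq (r : ℝ) : rt r ^ 2 = 1 + r ^ 2 := Real.sq_sqrt (by positivity)
theorem one_le_rt (r : ℝ) : 1 ≤ rt r := by
  rw [rt, Real.one_le_sqrt]
  nlinarith [sq_nonneg r]

theorem abs_le_rt (r : ℝ) : |r| ≤ rt r := by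
  apply Real.abs_le_sqrt
  linarith

theorem hasDerivAt_rt (r : ℝ) : HasDerivAt rt (r / rt r) r := by
  have h1 : HasDerivAt (fun r : ℝ => 1 + r ^ 2) (2 * r) r := by
    have := ((hasDerivAt_id r).pow 2).const_add 1
    simpa using this
  have h2 := h1.sqrt (by positivity)
  have h3 : 2 * r / (2 * Real.sqrt (1 + r ^ 2)) = r / rt r := by
    unfold rt
    rw [mul_div_mul_left _ _ (two_ne_zero)]
  rw [h3] at h2
  exact h2

theorem contDiff_rt : ContDiff ℝ ∞ rt := by
  unfold rt
  exact ContDiff.sqrt (by fun_prop) (fun x => by positivity)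

noncomputable def D0 : Dat where
  H r := r / (4 * rt r)
  H1 r := 1 / (4 * rt r ^ 3)
  H2 r := -(3 * r) / (4 * rt r ^ 5)
  W r := rt r * Real.exp (2 / 3 * r ^ 2 + 17 / 48 * r ^ 4)
  ψ r := 4 / 3 * r + 17 / 12 * r ^ 3 + r / (1 + r ^ 2)
  ψ1 r := 4 / 3 + 17 / 4 * r ^ 2 + (1 - r ^ 2) / (1 + r ^ 2) ^ 2
  dH r := by
    have hs := rt_pos r
    have h := (hasDerivAt_id r).div ((hasDerivAt_rt r).const_mul 4) (by positivity)
    refine h.congr_deriv ?_
    have h2 := rt_sq r
    simp only [id]
    field_simp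
    rw [h2]; ring
  dH1 r := by
    have hs := rt_pos r
    have h := (hasDerivAt_const r (1 : ℝ)).div (((hasDerivAt_rt r).pow 3).const_mul 4)
      (by simp only [Pi.pow_apply]; positivity)
    refine h.congr_deriv ?_
    have h2 := rt_sq r
    simp only [Nat.cast_ofNat, Pi.pow_apply]
    field_simp
    ring
  dW r := by
    have hs := rt_pos r
    have h1 : HasDerivAt (fun r : ℝ => 2 / 3 * r ^ 2 + 17 / 48 * r ^ 4)
        (4 / 3 * r + 17 / 12 * r ^ 3) r := by
      have := (((hasDerivAt_id r).pow 2).const_mul (2 / 3)).add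
        (((hasDerivAt_id r).pow 4).const_mul (17 / 48))
      refine this.congr_deriv ?_
      simp
      ring
    have h := (hasDerivAt_rt r).mul h1.exp
    refine h.congr_deriv ?_
    have h2 := rt_sq r
    have h3 : r / rt r = rt r * (r / (1 + r ^ 2)) := by
      rw [← h2]; field_simp
    rw [h3]
    ring
  dψ r := by
    have hp : (0 : ℝ) < 1 + r ^ 2 := by positivity
    have h0 : HasDerivAt (fun r : ℝ => 1 + r ^ 2) (2 * r) r := by
      have := ((hasDerivAt_id r).pow 2).const_add 1
      simpa using this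
    have h := (((hasDerivAt_id r).const_mul (4 / 3)).add
      (((hasDerivAt_id r).pow 3).const_mul (17 / 12))).add ((hasDerivAt_id r).div h0 hp.ne')
    refine h.congr_deriv ?_
    simp
    field_simp
    ring
  sH := contDiff_id.div (contDiff_const.mul contDiff_rt) (fun x => by
    have := rt_pos x
    positivity)
  sW := contDiff_rt.mul (Real.contDiff_exp.comp (by fun_prop))
  one_le r := by
    have h1 := one_le_rt r
    have h2 : 1 ≤ Real.exp (2 / 3 * r ^ 2 + 17 / 48 * r ^ 4) :=
      Real.one_le_exp (by positivity)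
    nlinarith
  absH r := by
    have hs := rt_pos r
    have := abs_le_rt r
    rw [abs_div, abs_of_pos (by positivity : 0 < 4 * rt r), div_le_div_iff₀ (by positivity)
      (by norm_num)]
    linarith
  absH1 r := by
    have hs := rt_pos r
    have h1 := one_le_rt r
    have h2 : 1 ≤ rt r ^ 3 := one_le_pow₀ h1
    rw [abs_of_pos (by positivity), div_le_div_iff₀ (by positivity) (by norm_num)]
    linarith
  absH2 r := by
    have hs := rt_pos r
    have h1 := one_le_rt r
    have h2 := rt_sq r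
    have h3 : 3 * |r| ≤ rt r ^ 4 := by
      have h4 : rt r ^ 4 = (1 + |r| ^ 2) ^ 2 := by
        rw [sq_abs, ← h2]; ring
      rw [h4]
      nlinarith [sq_nonneg (|r| ^ 2 - 1 / 3), sq_nonneg (|r| - 9 / 16)]
    have h5 : 3 * |r| ≤ rt r ^ 5 := by
      have h6 : 0 < rt r ^ 4 := by positivity
      have : rt r ^ 5 = rt r ^ 4 * rt r := by ring
      nlinarith
    rw [abs_div, abs_neg, abs_mul, abs_of_pos (by positivity : 0 < 4 * rt r ^ 5),
      abs_of_pos (by norm_num : (0 : ℝ) < 3), div_le_div_iff₀ (by positivity) (by norm_num)]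
    linarith
  lψ1 r := by
    have hp : (0 : ℝ) < (1 + r ^ 2) ^ 2 := by positivity
    have h1 : -(r ^ 2) ≤ (1 - r ^ 2) / (1 + r ^ 2) ^ 2 := by
      rw [le_div_iff₀ hp]
      nlinarith [sq_nonneg r, sq_nonneg (r ^ 2), sq_nonneg (r ^ 3)]
    nlinarith [sq_nonneg r]
  ode r := by
    have hs := rt_pos r
    have h2 := rt_sq r
    have h3 : r / (1 + r ^ 2) = r / rt r ^ 2 := by rw [h2]
    rw [h3]
    field_simp
    have h4 : rt r ^ 2 = 1 + r ^ 2 := h2
    linear_combination (-(192 : ℝ) * r * rt r ^ 2) * h4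

end Pool.Agent.W555.Ex
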