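import Mathlib

/-!
Riemannian metrics on a finite dimensional real vector space (regarded as a manifold with one
chart), Christoffel symbols, curvature, length distance and completeness, isometric immersions,
tension field and bitension field of a map.
-/

set_option autoImplicit false

namespace Pool.Agent.W555.RG

open scoped ContDiff Topology

section Defs

variable {V : Type} [NormedAddCommGroup V] [NormedSpace ℝ V]
variable {W : Type} [NormedAddCommGroup W] [NormedSpace ℝ W]

/-- A smooth Riemannian metric on the manifold `V` (a finite dimensional real vector space):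
for each point `x` a symmetric positive definite bilinear form on `T_x V = V`, whose coefficients
are smooth functions of `x`. -/
structure RMetric (V : Type) [NormedAddCommGroup V] [NormedSpace ℝ V] where
  /-- the inner product `⟨u, v⟩_x` -/
  form : V → LinearMap.BilinForm ℝ V
  symm' : ∀ x u v, form x u v = form x v u
  pos' : ∀ x u, u ≠ 0 → 0 < form x u u
  smooth' : ∀ u v, ContDiff ℝ ∞ (fun x => form x u v)

/-- The Christoffel map of the Levi-Civita connection, in the global chart: `Γ_x(u, v)` is the
vector `z` given by the Koszul formula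
`2 ⟨z, w⟩ = D_u ⟨v, w⟩ + D_v ⟨u, w⟩ - D_w ⟨u, v⟩` for all `w`
(so that `∇_u Y = D_u Y + Γ(u, Y)`). -/
noncomputable def RMetric.Gam (h : RMetric V) (x u v : V) : V :=
  Classical.epsilon fun z => ∀ w, 2 * h.form x z w =
    fderiv ℝ (fun y => h.form y v w) x u + fderiv ℝ (fun y => h.form y u w) x v
      - fderiv ℝ (fun y => h.form y u v) x w

/-- The curvature tensor `R(u, v) w`, with `R(X, Y) = [∇_X, ∇_Y] - ∇_[X, Y]`. -/
noncomputable def RMetric.curv (h : RMetric V) (x u v w : V) : V :=
  fderiv ℝ (fun y => h.Gam y v w) x u - fderiv ℝ (fun y => h.Gam y u w) x v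
    + h.Gam x u (h.Gam x v w) - h.Gam x v (h.Gam x u w)

/-- All sectional curvatures are nonpositive: the numerator `⟨R(u, v) v, u⟩` of the sectional
curvature of the plane spanned by `u, v` is nonpositive for all `u, v`. -/
def RMetric.Nonpos (h : RMetric V) : Prop :=
  ∀ x u v, h.form x (h.curv x u v v) u ≤ 0

/-- The length of the curve `γ` on `[0, 1]`. -/
noncomputable def RMetric.length (h : RMetric V) (γ : ℝ → V) : ℝ :=
  ∫ s in (0 : ℝ)..1, Real.sqrt (h.form (γ s) (deriv γ s) (deriv γ s))

/-- The Riemannian distance: the infimum of the lengths of the `C¹` curves from `x` to `y`. -/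
noncomputable def RMetric.dist (h : RMetric V) (x y : V) : ℝ :=
  sInf {L | ∃ γ : ℝ → V, ContDiff ℝ 1 γ ∧ γ 0 = x ∧ γ 1 = y ∧ L = h.length γ}

/-- Completeness: every Cauchy sequence for the Riemannian distance converges. -/
def RMetric.IsComplete (h : RMetric V) : Prop :=
  ∀ s : ℕ → V, (∀ ε : ℝ, 0 < ε → ∃ N : ℕ, ∀ m n : ℕ, N ≤ m → N ≤ n → h.dist (s m) (s n) < ε) →
    ∃ q : V, Filter.Tendsto (fun n => h.dist (s n) q) Filter.atTop (𝓝 0)

/-- `φ : (V, g) → (W, h)` is a smooth isometric immersion (an immersion because `g` is positive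
definite). -/
def IsIsometricImmersion (g : RMetric V) (h : RMetric W) (φ : V → W) : Prop :=
  ContDiff ℝ ∞ φ ∧
    ∀ x u v, g.form x u v = h.form (φ x) (fderiv ℝ φ x u) (fderiv ℝ φ x v)

/-- `e` is an orthonormal basis of `T_x V`. -/
def RMetric.IsOrtho (g : RMetric V) (x : V) (e : Fin (Module.finrank ℝ V) → V) : Prop :=
  ∀ i j, g.form x (e i) (e j) = if i = j then 1 else 0

/-- A choice of an orthonormal basis of `T_x V`. -/
noncomputable def RMetric.frame (g : RMetric V) (x : V) : Fin (Module.finrank ℝ V) → V :=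
  Classical.epsilon (g.IsOrtho x)

/-- The trace at `x`, with respect to `g`, of a bilinear map `B` on `T_x V`
(it does not depend on the choice of the orthonormal basis). -/
noncomputable def RMetric.trace (g : RMetric V) (x : V) (B : V → V → W) : W :=
  ∑ i, B (g.frame x i) (g.frame x i)

/-- The second fundamental form `(∇ dφ)(u, v)` of a map `φ : (V, g) → (W, h)`. -/
noncomputable def nablaD (g : RMetric V) (h : RMetric W) (φ : V → W) (x u v : V) : W :=
  fderiv ℝ (fun y => fderiv ℝ φ y v) x u + h.Gam (φ x) (fderiv ℝ φ x u) (fderiv ℝ φ x v)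
    - fderiv ℝ φ x (g.Gam x u v)

/-- The tension field `τ(φ) = trace ∇ dφ`. -/
noncomputable def tension (g : RMetric V) (h : RMetric W) (φ : V → W) (x : V) : W :=
  g.trace x (nablaD g h φ x)

/-- The covariant derivative `∇^φ_u σ` of a section `σ` of the bundle `φ⁻¹ T W`. -/
noncomputable def covD (h : RMetric W) (φ : V → W) (σ : V → W) (x u : V) : W :=
  fderiv ℝ σ x u + h.Gam (φ x) (fderiv ℝ φ x u) (σ x)

/-- The bitension field
`τ₂(φ) = trace (∇^φ ∇^φ - ∇^φ_∇) τ(φ) - trace R(dφ, τ(φ)) dφ`. -/
noncomputable def bitension (g : RMetric V) (h : RMetric W) (φ : V → W) (x : V) : W :=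
  g.trace x (fun u v => covD h φ (fun y => covD h φ (tension g h φ) y v) x u
      - covD h φ (tension g h φ) x (g.Gam x u v))
    - g.trace x (fun u v =>
        h.curv (φ x) (fderiv ℝ φ x u) (tension g h φ x) (fderiv ℝ φ x v))

end Defs

section Lemmas

variable {V : Type} [NormedAddCommGroup V] [NormedSpace ℝ V]
variable {W : Type} [NormedAddCommGroup W] [NormedSpace ℝ W]

theorem RMetric.Gam_eq (h : RMetric V) (x u v z : V)
    (hz : ∀ w, 2 * h.form x z w =
      fderiv ℝ (fun y => h.form y v w) x u + fderiv ℝ (fun y => h.form y u w) x v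
        - fderiv ℝ (fun y => h.form y u v) x w) : h.Gam x u v = z := by
  have hs : ∀ w, 2 * h.form x (h.Gam x u v) w =
      fderiv ℝ (fun y => h.form y v w) x u + fderiv ℝ (fun y => h.form y u w) x v
        - fderiv ℝ (fun y => h.form y u v) x w :=
    Classical.epsilon_spec (p := fun z => ∀ w, 2 * h.form x z w =
      fderiv ℝ (fun y => h.form y v w) x u + fderiv ℝ (fun y => h.form y u w) x v
        - fderiv ℝ (fun y => h.form y u v) x w) ⟨z, hz⟩
  by_contra hne
  have hne' : h.Gam x u v - z ≠ 0 := sub_ne_zero.mpr hne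
  have hp := h.pos' x _ hne'
  have h1 : h.form x (h.Gam x u v) (h.Gam x u v - z) = h.form x z (h.Gam x u v - z) := by
    have := (hs (h.Gam x u v - z)).trans (hz (h.Gam x u v - z)).symm
    linarith
  rw [LinearMap.map_sub₂, h1, sub_self] at hp
  exact lt_irrefl _ hp

/-- Lower bound of the length of a curve. -/
theorem RMetric.length_ge [FiniteDimensional ℝ V] (h : RMetric V) {c : ℝ} (hc : 0 ≤ c)
    (hlow : ∀ x v, c ^ 2 * ‖v‖ ^ 2 ≤ h.form x v v)
    (hcont : ∀ γ : ℝ → V, ContDiff ℝ 1 γ →
      Continuous fun s => h.form (γ s) (deriv γ s) (deriv γ s))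
    {γ : ℝ → V} (hγ : ContDiff ℝ 1 γ) : c * ‖γ 1 - γ 0‖ ≤ h.length γ := by
  have hd : Continuous (deriv γ) := hγ.continuous_deriv le_rfl
  have hint : ∫ s in (0 : ℝ)..1, deriv γ s = γ 1 - γ 0 :=
    intervalIntegral.integral_deriv_eq_sub
      (fun s _ => (hγ.differentiable (by norm_num)).differentiableAt)
      (hd.intervalIntegrable _ _)
  rw [← hint]
  unfold RMetric.length
  calc c * ‖∫ s in (0 : ℝ)..1, deriv γ s‖
      ≤ c * ∫ s in (0 : ℝ)..1, ‖deriv γ s‖ := by
        gcongr
        exact intervalIntegral.norm_integral_le_integral_norm (by norm_num)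
    _ = ∫ s in (0 : ℝ)..1, c * ‖deriv γ s‖ := by
        rw [intervalIntegral.integral_const_mul]
    _ ≤ _ := by
        apply intervalIntegral.integral_mono_on (by norm_num)
        · exact (continuous_const.mul hd.norm).intervalIntegrable _ _
        · exact (Real.continuous_sqrt.comp (hcont γ hγ)).intervalIntegrable _ _
        · intro s _
          apply Real.le_sqrt_of_sq_le
          calc (c * ‖deriv γ s‖) ^ 2 = c ^ 2 * ‖deriv γ s‖ ^ 2 := by ring
            _ ≤ _ := hlow _ _

theorem RMetric.length_nonneg (h : RMetric V) (γ : ℝ → V) : 0 ≤ h.length γ :=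
  intervalIntegral.integral_nonneg (by norm_num) fun _ _ => Real.sqrt_nonneg _

/-- A metric bounded below by a constant multiple of the flat metric is complete. -/
theorem RMetric.isComplete_of_bounds [FiniteDimensional ℝ V] (h : RMetric V) {c : ℝ} (hc : 0 < c)
    (hlow : ∀ x v, c ^ 2 * ‖v‖ ^ 2 ≤ h.form x v v)
    (K : V → ℝ) (hK : Continuous K) (hup : ∀ x v, h.form x v v ≤ K x * ‖v‖ ^ 2)
    (hcont : ∀ γ : ℝ → V, ContDiff ℝ 1 γ →
      Continuous fun s => h.form (γ s) (deriv γ s) (deriv γ s)) : h.IsComplete := by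
  intro s hs
  -- the distance dominates the norm
  have hge : ∀ x y : V, c * ‖x - y‖ ≤ h.dist x y := by
    intro x y
    apply le_csInf
    · refine ⟨_, fun s => x + s • (y - x), by fun_prop, by simp, by simp, rfl⟩
    · rintro L ⟨γ, hγ, h0, h1, rfl⟩
      have := h.length_ge hc.le hlow hcont hγ
      rw [h0, h1, norm_sub_rev] at this
      exact this
  -- the sequence is Cauchy in norm
  have hcau : CauchySeq s := by
    rw [Metric.cauchySeq_iff]
    intro ε hε
    obtain ⟨N, hN⟩ := hs (c * ε) (by positivity)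
    refine ⟨N, fun m hm n hn => ?_⟩
    have h1 := hge (s m) (s n)
    have h2 := hN m n hm hn
    rw [dist_eq_norm]
    have : c * ‖s m - s n‖ < c * ε := lt_of_le_of_lt h1 h2
    exact lt_of_mul_lt_mul_left this hc.le
  have : CompleteSpace V := FiniteDimensional.complete ℝ V
  obtain ⟨q, hq⟩ := cauchySeq_tendsto_of_complete hcau
  refine ⟨q, ?_⟩
  have : ProperSpace V := FiniteDimensional.proper ℝ V
  obtain ⟨C₀, hC⟩ := (isCompact_closedBall q (1 : ℝ)).bddAbove_image hK.continuousOn
  obtain ⟨C, hC', hC0⟩ : ∃ C : ℝ, (∀ y ∈ Metric.closedBall q (1 : ℝ), K y ≤ C) ∧ 0 ≤ C :=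
    ⟨max C₀ 0, fun y hy => (hC (Set.mem_image_of_mem K hy)).trans (le_max_left _ _),
      le_max_right _ _⟩
  have hub : ∀ᶠ n in Filter.atTop, h.dist (s n) q ≤ Real.sqrt C * ‖s n - q‖ := by
    have hball : ∀ᶠ n in Filter.atTop, s n ∈ Metric.closedBall q (1 : ℝ) :=
      hq.eventually (Metric.closedBall_mem_nhds q one_pos)
    filter_upwards [hball] with n hn
    have hγ : ContDiff ℝ 1 (fun τ : ℝ => s n + τ • (q - s n)) := by fun_prop
    have hle : h.dist (s n) q ≤ h.length (fun τ : ℝ => s n + τ • (q - s n)) := by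
      apply csInf_le
      · exact ⟨0, by rintro L ⟨γ, -, -, -, rfl⟩; exact h.length_nonneg γ⟩
      · exact ⟨_, hγ, by simp, by simp, rfl⟩
    refine hle.trans ?_
    have hder : ∀ τ : ℝ, deriv (fun τ : ℝ => s n + τ • (q - s n)) τ = q - s n := by
      intro τ
      have : HasDerivAt (fun τ : ℝ => s n + τ • (q - s n)) ((1 : ℝ) • (q - s n)) τ :=
        ((hasDerivAt_id τ).smul_const (q - s n)).const_add (s n)
      rw [this.deriv, one_smul]
    unfold RMetric.length
    calc ∫ τ in (0 : ℝ)..1, Real.sqrt (h.form (s n + τ • (q - s n))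
            (deriv (fun τ : ℝ => s n + τ • (q - s n)) τ)
            (deriv (fun τ : ℝ => s n + τ • (q - s n)) τ))
        ≤ ∫ _ in (0 : ℝ)..1, Real.sqrt C * ‖s n - q‖ := by
          apply intervalIntegral.integral_mono_on (by norm_num)
          · exact (Real.continuous_sqrt.comp (hcont _ hγ)).intervalIntegrable _ _
          · exact continuous_const.intervalIntegrable _ _
          · intro τ hτ
            rw [hder]
            have hmem : s n + τ • (q - s n) ∈ Metric.closedBall q (1 : ℝ) :=
              (convex_closedBall q (1 : ℝ)).add_smul_sub_mem hn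
                (Metric.mem_closedBall_self zero_le_one) hτ
            have h1 : h.form (s n + τ • (q - s n)) (q - s n) (q - s n) ≤ C * ‖s n - q‖ ^ 2 := by
              refine (hup _ _).trans ?_
              rw [norm_sub_rev q (s n)]
              have := hC' _ hmem
              gcongr
            calc Real.sqrt (h.form (s n + τ • (q - s n)) (q - s n) (q - s n))
                ≤ Real.sqrt (C * ‖s n - q‖ ^ 2) := Real.sqrt_le_sqrt h1
              _ = Real.sqrt C * ‖s n - q‖ := by
                rw [Real.sqrt_mul hC0, Real.sqrt_sq (norm_nonneg _)]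
      _ = Real.sqrt C * ‖s n - q‖ := by simp
  have hlim : Filter.Tendsto (fun n => Real.sqrt C * ‖s n - q‖) Filter.atTop (𝓝 0) := by
    have : Filter.Tendsto (fun n => ‖s n - q‖) Filter.atTop (𝓝 0) :=
      tendsto_iff_norm_sub_tendsto_zero.mp hq
    simpa using this.const_mul (Real.sqrt C)
  refine squeeze_zero' (Filter.Eventually.of_forall fun n => ?_) hub hlim
  exact (mul_nonneg hc.le (norm_nonneg _)).trans (hge _ _)

end Lemmas

end Pool.Agent.W555.RG
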