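import Mathlib

/-! Enlarging a simplex in a cap to an inscribed one; dual bases of simplicial cones. -/

set_option autoImplicit false

open scoped RealInnerProductSpace

namespace Pool.Agent.W555.SPL

variable {E : Type*} [NormedAddCommGroup E] [InnerProductSpace ℝ E]
variable {ι : Type*} [Fintype ι] [DecidableEq ι]

/-- one step: replace the vector with index `i` -/
lemma step {s : ℝ} (hs : 0 < s) {c : E} (N : ι → E) (hli : LinearIndependent ℝ N)
    (hN : ∀ i, s ≤ ⟪N i, c⟫) (hN1 : ∀ i, ‖N i‖ = 1) {i j : ι} (hij : i ≠ j) :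
    ∃ v : E, ‖v‖ = 1 ∧ ⟪v, c⟫ = s ∧ LinearIndependent ℝ (Function.update N i v) ∧
      ∀ x, 0 ≤ ⟪v, x⟫ → 0 ≤ ⟪N j, x⟫ → 0 ≤ ⟪N i, x⟫ := by
  set w : ℝ → E := fun l => N i - l • N j with hw
  have hw0 : ∀ l, w l ≠ 0 := by
    intro l h
    have h1 := Fintype.linearIndependent_iff.1 hli
      (fun k => if k = i then 1 else if k = j then -l else 0) (by
        have : ∀ k, (if k = i then (1:ℝ) else if k = j then -l else 0) • N k =
            (if k = i then N k else 0) + (if k = j then (-l) • N k else 0) := by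
          intro k
          by_cases h1 : k = i
          · have h2 : k ≠ j := fun h2 => hij (h1.symm.trans h2)
            simp only [h1, if_true, if_neg (h1 ▸ h2 : i ≠ j)]
            simp
          · by_cases h2 : k = j
            · simp [h2, hij.symm]
            · simp [h1, h2]
        simp only [this]
        rw [Finset.sum_add_distrib]
        simp only [Finset.sum_ite_eq', Finset.mem_univ, if_true]
        rw [neg_smul, ← sub_eq_add_neg]
        exact h) i
    simp at h1
  have hcw : Continuous w := by fun_prop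
  set f : ℝ → ℝ := fun l => ⟪w l, c⟫ / ‖w l‖ with hf
  have hfc : Continuous f := by
    apply Continuous.div
    · exact hcw.inner continuous_const
    · exact hcw.norm
    · intro l; exact norm_ne_zero_iff.2 (hw0 l)
  have hj : 0 < ⟪N j, c⟫ := hs.trans_le (hN j)
  have hi : 0 < ⟪N i, c⟫ := hs.trans_le (hN i)
  have hf0 : s ≤ f 0 := by
    simp only [hf, hw]
    rw [zero_smul, sub_zero, hN1, div_one]
    exact hN i
  have hf1 : f (⟪N i, c⟫ / ⟪N j, c⟫) = 0 := by
    simp only [hf, hw]
    rw [inner_sub_left, inner_smul_left]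
    simp only [conj_trivial]
    rw [div_mul_cancel₀ _ hj.ne', sub_self, zero_div]
  have hl0 : 0 ≤ ⟪N i, c⟫ / ⟪N j, c⟫ := (div_pos hi hj).le
  obtain ⟨l, hl, hfl⟩ : ∃ l ∈ Set.Icc 0 (⟪N i, c⟫ / ⟪N j, c⟫), f l = s := by
    have := intermediate_value_Icc' hl0 hfc.continuousOn
    exact this ⟨by rw [hf1]; exact hs.le, hf0⟩
  have hn : 0 < ‖w l‖ := norm_pos_iff.2 (hw0 l)
  refine ⟨‖w l‖⁻¹ • w l, ?_, ?_, ?_, ?_⟩
  · rw [norm_smul, norm_inv, norm_norm, inv_mul_cancel₀ hn.ne']
  · rw [inner_smul_left]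
    simp only [conj_trivial]
    rw [← hfl, hf]
    simp only
    rw [div_eq_inv_mul]
  · refine hli.update i _ ⟨‖w l‖, mem_nonZeroDivisors_of_ne_zero hn.ne',
      Finsupp.single i 1 - Finsupp.single j l, ?_, ?_⟩
    · have : (Finsupp.single i (1:ℝ) - Finsupp.single j l) i = 1 := by
        simp [hij.symm]
      rw [this]
      exact one_mem _
    · rw [smul_smul, mul_inv_cancel₀ hn.ne', one_smul, map_sub,
        Finsupp.linearCombination_single, Finsupp.linearCombination_single, one_smul]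
  · intro x hx hjx
    rw [inner_smul_left] at hx
    simp only [conj_trivial] at hx
    have h1 : 0 ≤ ⟪w l, x⟫ := (mul_nonneg_iff_of_pos_left (inv_pos.2 hn)).1 hx
    rw [hw] at h1
    simp only at h1
    rw [inner_sub_left, inner_smul_left] at h1
    simp only [conj_trivial] at h1
    nlinarith [hl.1, mul_nonneg hl.1 hjx]

/-- a simplex containing the cap contains a circumscribed one -/
lemma push {s : ℝ} (hs : 0 < s) {c : E} [Nontrivial ι] (N : ι → E)
    (hli : LinearIndependent ℝ N) (hN : ∀ i, s ≤ ⟪N i, c⟫) (hN1 : ∀ i, ‖N i‖ = 1) :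
    ∃ M : ι → E, LinearIndependent ℝ M ∧ (∀ i, ‖M i‖ = 1) ∧ (∀ i, ⟪M i, c⟫ = s) ∧
      ∀ x, (∀ i, 0 ≤ ⟪M i, x⟫) → ∀ i, 0 ≤ ⟪N i, x⟫ := by
  have key : ∀ T : Finset ι, ∃ M : ι → E, LinearIndependent ℝ M ∧ (∀ i, ‖M i‖ = 1) ∧
      (∀ i, s ≤ ⟪M i, c⟫) ∧ (∀ i ∈ T, ⟪M i, c⟫ = s) ∧
      ∀ x, (∀ i, 0 ≤ ⟪M i, x⟫) → ∀ i, 0 ≤ ⟪N i, x⟫ := by
    intro T
    induction T using Finset.induction_on with
    | empty => exact ⟨N, hli, hN1, hN, by simp, fun x hx => hx⟩
    | insert i T hi ih =>
      obtain ⟨M, h1, h2, h3, h4, h5⟩ := ih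
      obtain ⟨j, hj⟩ := exists_ne i
      obtain ⟨v, hv1, hv2, hv3, hv4⟩ := step hs M h1 h3 h2 hj.symm
      refine ⟨Function.update M i v, hv3, ?_, ?_, ?_, ?_⟩
      · intro k
        by_cases hk : k = i
        · subst hk; simp [hv1]
        · simp [hk, h2]
      · intro k
        by_cases hk : k = i
        · subst hk; simp [hv2]
        · simp [hk, h3]
      · intro k hk
        by_cases hki : k = i
        · subst hki; simp [hv2]
        · rw [Finset.mem_insert] at hk
          rw [Function.update_of_ne hki]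
          exact h4 k (hk.resolve_left hki)
      · intro x hx
        apply h5
        have hx' : ∀ k, k ≠ i → 0 ≤ ⟪M k, x⟫ := by
          intro k hk
          have := hx k
          rwa [Function.update_of_ne hk] at this
        intro k
        by_cases hk : k = i
        · subst hk
          have h6 := hx k
          rw [Function.update_self] at h6
          exact hv4 x h6 (hx' j hj)
        · exact hx' k hk
  obtain ⟨M, h1, h2, _, h4, h5⟩ := key Finset.univ
  exact ⟨M, h1, h2, fun i => h4 i (Finset.mem_univ i), h5⟩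

/-- the dual family of a basis -/
lemma exists_dual [FiniteDimensional ℝ E] (u : ι → E) (hli : LinearIndependent ℝ u)
    (hc : Fintype.card ι = Module.finrank ℝ E) :
    ∃ n : ι → E, (∀ i j, ⟪n i, u j⟫ = if i = j then 1 else 0) ∧ LinearIndependent ℝ n ∧
      (∀ x, x = ∑ j, ⟪n j, x⟫ • u j) ∧
      {x : E | ∃ t : ι → ℝ, (∀ j, 0 ≤ t j) ∧ x = ∑ j, t j • u j} = {x | ∀ i, 0 ≤ ⟪n i, x⟫} := by
  have hnt : ⊤ ≤ Submodule.span ℝ (Set.range u) :=
    (hli.span_eq_top_of_card_eq_finrank' hc).ge
  set b : Module.Basis ι ℝ E := Module.Basis.mk hli hnt with hb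
  have hbu : ∀ j, b j = u j := fun j => Module.Basis.mk_apply hli hnt j
  set n : ι → E := fun i => (InnerProductSpace.toDual ℝ E).symm
    (LinearMap.toContinuousLinearMap (b.coord i)) with hn
  have hn1 : ∀ i x, ⟪n i, x⟫ = b.repr x i := by
    intro i x
    rw [hn]
    simp only
    rw [InnerProductSpace.toDual_symm_apply]
    rfl
  have hd : ∀ i j, ⟪n i, u j⟫ = if i = j then (1:ℝ) else 0 := by
    intro i j
    rw [hn1, ← hbu, b.repr_self, Finsupp.single_apply]
    simp [eq_comm]
  have hx : ∀ x, x = ∑ j, ⟪n j, x⟫ • u j := by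
    intro x
    have := b.sum_repr x
    simp only [hbu] at this
    simp only [hn1]
    exact this.symm
  have ht : ∀ (t : ι → ℝ) i, ⟪n i, ∑ j, t j • u j⟫ = t i := by
    intro t i
    rw [inner_sum]
    simp only [inner_smul_right, hd]
    simp
  refine ⟨n, hd, ?_, hx, ?_⟩
  · rw [Fintype.linearIndependent_iff]
    intro g hg i
    have h1 : ⟪∑ k, g k • n k, u i⟫ = 0 := by rw [hg, inner_zero_left]
    rw [sum_inner] at h1
    simp only [inner_smul_left, hd, conj_trivial] at h1
    simpa using h1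
  · ext x
    simp only [Set.mem_ofPred_eq]
    constructor
    · rintro ⟨t, ht0, rfl⟩ i
      rw [ht]
      exact ht0 i
    · intro h
      exact ⟨fun j => ⟪n j, x⟫, h, hx x⟩

/-- dual of an equiangular family -/
lemma dual_equiangular [FiniteDimensional ℝ E] (u n : ι → E) (hli : LinearIndependent ℝ u)
    (hc : Fintype.card ι = Module.finrank ℝ E) (hu1 : ∀ i, ‖u i‖ = 1) {t : ℝ}
    (hut : ∀ i j, i ≠ j → ⟪u i, u j⟫ = t)
    (hd : ∀ i j, ⟪n i, u j⟫ = if i = j then 1 else 0) [Nontrivial ι] :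
    ∃ p q : ℝ, (∀ i, ‖n i‖ ^ 2 = p) ∧ ∀ i j, i ≠ j → ⟪n i, n j⟫ = q := by
  set S := ∑ j, u j with hS
  have hSne : S ≠ 0 := by
    intro h
    obtain ⟨i, _, _⟩ := exists_pair_ne ι
    have := Fintype.linearIndependent_iff.1 hli (fun _ => 1) (by simpa using h) i
    simp at this
  have hnn : ∀ i, ⟪u i, u i⟫ = (1:ℝ) := fun i => by
    rw [real_inner_self_eq_norm_sq, hu1]; norm_num
  have hSu : ∀ j, ⟪S, u j⟫ = 1 - t + Fintype.card ι * t := by
    intro j
    rw [hS, sum_inner]
    have : ∀ k, ⟪u k, u j⟫ = t + if k = j then 1 - t else 0 := by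
      intro k
      by_cases h : k = j
      · subst h; rw [hnn]; simp
      · rw [hut k j h]; simp [h]
    simp only [this]
    rw [Finset.sum_add_distrib]
    simp
    ring
  have hSS : ⟪S, S⟫ = Fintype.card ι * (1 - t + Fintype.card ι * t) := by
    conv_lhs => rw [hS]
    rw [← hS, inner_sum]
    simp only [hSu]
    simp
    ring
  have hD : 1 - t + Fintype.card ι * t ≠ 0 := by
    intro h
    rw [h, mul_zero] at hSS
    exact hSne (inner_self_eq_zero.1 hSS)
  have ht1 : 1 - t ≠ 0 := by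
    intro h
    obtain ⟨i, j, hij⟩ := exists_pair_ne ι
    have h1 : ⟪u i, u j⟫ = 1 := by rw [hut i j hij]; linarith
    have h2 := (inner_eq_one_iff_of_norm_eq_one (𝕜 := ℝ) (hu1 i) (hu1 j)).1 h1
    exact hij (hli.injective h2)
  set D := 1 - t + Fintype.card ι * t with hDdef
  have hnt : ⊤ ≤ Submodule.span ℝ (Set.range u) :=
    (hli.span_eq_top_of_card_eq_finrank' hc).ge
  have hn : ∀ i, n i = (1 - t)⁻¹ • (u i - (t / D) • S) := by
    intro i
    have h1 : ∀ j, ⟪n i - (1 - t)⁻¹ • (u i - (t / D) • S), u j⟫ = 0 := by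
      intro j
      rw [inner_sub_left, hd, inner_smul_left, inner_sub_left, inner_smul_left, hSu]
      simp only [conj_trivial]
      rw [div_mul_cancel₀ _ hD]
      by_cases h : i = j
      · subst h
        rw [hnn]
        simp [ht1]
      · rw [hut i j h]
        simp [h]
    have h2 : ∀ y ∈ Submodule.span ℝ (Set.range u),
        ⟪n i - (1 - t)⁻¹ • (u i - (t / D) • S), y⟫ = 0 := by
      intro y hy
      induction hy using Submodule.span_induction with
      | mem y hy => obtain ⟨j, rfl⟩ := hy; exact h1 j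
      | zero => simp
      | add y z _ _ hy hz => rw [inner_add_right, hy, hz, add_zero]
      | smul a y _ hy => rw [inner_smul_right, hy, mul_zero]
    exact sub_eq_zero.1 (inner_self_eq_zero.1 (h2 _ (hnt trivial)))
  have hnS : ∀ i, ⟪n i, S⟫ = 1 := by
    intro i
    rw [hS, inner_sum]
    simp [hd]
  have hnn' : ∀ i j, ⟪n i, n j⟫ = (1 - t)⁻¹ * ((if i = j then 1 else 0) - t / D) := by
    intro i j
    conv_lhs => rw [hn j]
    rw [inner_smul_right, inner_sub_right, inner_smul_right, hd, hnS, mul_one]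
  refine ⟨(1 - t)⁻¹ * (1 - t / D), (1 - t)⁻¹ * (0 - t / D), fun i => ?_, fun i j hij => ?_⟩
  · rw [← real_inner_self_eq_norm_sq, hnn']; simp
  · rw [hnn']; simp [hij]

end Pool.Agent.W555.SPL
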