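import Pool.Agent.H604R2.SW.Final
import Pool.Agent.W555.SPL

/-! Gaussian and `toSphere` versions of the inequality for circumscribed spherical simplices. -/

set_option autoImplicit false

namespace Pool.Agent.W555.SPM

open MeasureTheory Matrix Set ProbabilityTheory
open Pool.Agent.H604R2.SW Pool.Agent.H604R2.SW.SphAux
open scoped Pointwise

/-- Gaussian version -/
theorem gauss_le {d' : ℕ} {r : ℝ} (hr0 : 0 < r) (hr1 : r < Real.pi / 2)
    (c : EuclideanSpace ℝ (Fin (d' + 2))) (n m : Fin (d' + 2) → EuclideanSpace ℝ (Fin (d' + 2)))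
    (hc : ‖c‖ = 1) (hn1 : ∀ i, ‖n i‖ = 1) (hm1 : ∀ i, ‖m i‖ = 1)
    (hn : ∀ i, inner ℝ (n i) c = Real.sin r) (hm : ∀ i, inner ℝ (m i) c = Real.sin r)
    (hnli : LinearIndependent ℝ n) (hmli : LinearIndependent ℝ m)
    (hreg : ∀ i j k l, i ≠ j → k ≠ l → inner ℝ (m i) (m j) = inner ℝ (m k) (m l)) :
    (stdGaussian (EuclideanSpace ℝ (Fin (d' + 2)))) {z | ∀ i, 0 ≤ inner ℝ (m i) z} ≤
      (stdGaussian (EuclideanSpace ℝ (Fin (d' + 2)))) {z | ∀ i, 0 ≤ inner ℝ (n i) z} := by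
  have hs : 0 < Real.sin r := Real.sin_pos_of_pos_of_lt_pi hr0 (by linarith [Real.pi_pos])
  have hcr : 0 < Real.cos r := Real.cos_pos_of_mem_Ioo ⟨by linarith [Real.pi_pos], hr1⟩
  have hGn := gram_eq hcr n hc hn
  have hGm := gram_reg hs hcr m c hc hm1 hm hmli hreg
  have hPn : (gram ℝ n).PosDef := posDef_gram_of_linearIndependent hnli
  have hPm : (gram ℝ m).PosDef := posDef_gram_of_linearIndependent hmli
  have hend := f_end d' (Real.sin r ^ 2) (Real.cos r ^ 2) (gram ℝ fun i => xx r c (n i))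
    (by positivity) (by positivity) (corr_xx hcr n hc hn1 hn) (by
      have := hPn
      rw [← hGn] at this
      exact this)
  have hGn' : Real.cos r ^ 2 • (gram ℝ fun i => xx r c (n i)) +
      Matrix.of (fun _ _ => Real.sin r ^ 2) = gram ℝ n := hGn
  rw [hGn', hGm] at hend
  have key : ∀ v : Fin (d' + 2) → EuclideanSpace ℝ (Fin (d' + 2)), (gram ℝ v).PosDef →
      orth (gram ℝ v) = ((stdGaussian (EuclideanSpace ℝ (Fin (d' + 2))))
        {z | ∀ i, 0 ≤ inner ℝ (v i) z}).toReal := by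
    intro v hv
    have h4 := law (fun i => - v i) (gram ℝ v) hv (by
      intro i j
      rw [inner_neg_neg, gram_apply])
    rw [h4]
    have e : {z : EuclideanSpace ℝ (Fin (d' + 2)) | ∀ i, inner ℝ (- v i) z ≤ 0} =
        {z | ∀ i, 0 ≤ inner ℝ (v i) z} := by
      ext z
      simp only [Set.mem_ofPred_eq]
      apply forall_congr'
      intro i
      rw [inner_neg_left]
      constructor <;> intro h <;> linarith
    rw [e]
  rw [key n hPn, key m hPm] at hend
  exact (ENNReal.toReal_le_toReal (measure_ne_top _ _) (measure_ne_top _ _)).1 hend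

open Pool.Agent.Helper843.SphB in
/-- `toSphere` of the trace of a cone -/
theorem toSphere_cone (d : ℕ) (W : Set (EuclideanSpace ℝ (Fin (d + 1)))) (hW : MeasurableSet W)
    (hcone : ∀ (r : ℝ) (z : EuclideanSpace ℝ (Fin (d + 1))), 0 < r → (r • z ∈ W ↔ z ∈ W)) :
    (volume : Measure (EuclideanSpace ℝ (Fin (d + 1)))).toSphere
      ((Subtype.val : Metric.sphere (0 : EuclideanSpace ℝ (Fin (d+1))) 1 →
            EuclideanSpace ℝ (Fin (d+1))) ⁻¹' {x | ‖x‖ = 1 ∧ x ∈ W}) =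
      (d + 1 : ℕ) * (stdGaussian (EuclideanSpace ℝ (Fin (d + 1))) W *
        volume (Metric.ball (0 : EuclideanSpace ℝ (Fin (d + 1))) 1)) := by
  have hn : Module.finrank ℝ (EuclideanSpace ℝ (Fin (d + 1))) = d + 1 := by simp
  obtain ⟨x0, hx0⟩ : ∃ x0 : EuclideanSpace ℝ (Fin (d + 1)), ‖x0‖ = 1 :=
    ⟨EuclideanSpace.single 0 1, by simp⟩
  have h1 := avg_ball hn W hW hcone x0 hx0
  have h2 := hausAux.avg_gauss hn (hausAux.gauss_ne_zero d) W hW hcone x0 hx0
  rw [h2] at h1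
  have h3 : volume (W ∩ Metric.ball (0 : EuclideanSpace ℝ (Fin (d + 1))) 1) =
      stdGaussian (EuclideanSpace ℝ (Fin (d + 1))) W *
        volume (Metric.ball (0 : EuclideanSpace ℝ (Fin (d + 1))) 1) := by
    have h4 : volume (W ∩ Metric.ball (0 : EuclideanSpace ℝ (Fin (d + 1))) 1) *
        tot (EuclideanSpace ℝ (Fin (d + 1))) =
        (stdGaussian (EuclideanSpace ℝ (Fin (d + 1))) W *
          volume (Metric.ball (0 : EuclideanSpace ℝ (Fin (d + 1))) 1)) *
        tot (EuclideanSpace ℝ (Fin (d + 1))) := by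
      rw [← h1]; ring
    exact (ENNReal.mul_left_inj tot_ne_zero tot_ne_top).1 h4
  have hms : MeasurableSet ((Subtype.val : Metric.sphere (0 : EuclideanSpace ℝ (Fin (d+1))) 1 →
            EuclideanSpace ℝ (Fin (d+1))) ⁻¹' {x | ‖x‖ = 1 ∧ x ∈ W}) := by
    apply measurable_subtype_coe
    exact ((isClosed_eq continuous_norm continuous_const).measurableSet).inter hW
  rw [Measure.toSphere_apply' _ hms, hn]
  congr 1
  rw [← h3]
  have hset : Ioo (0 : ℝ) 1 • ((Subtype.val : Metric.sphere (0 : EuclideanSpace ℝ (Fin (d+1))) 1 →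
            EuclideanSpace ℝ (Fin (d+1))) '' ((Subtype.val : Metric.sphere
              (0 : EuclideanSpace ℝ (Fin (d+1))) 1 →
            EuclideanSpace ℝ (Fin (d+1))) ⁻¹' {x | ‖x‖ = 1 ∧ x ∈ W})) =
      (W ∩ Metric.ball (0 : EuclideanSpace ℝ (Fin (d + 1))) 1) \ {0} := by
    ext x
    simp only [Set.mem_smul, Set.mem_image, Set.mem_preimage, Set.mem_ofPred_eq, Set.mem_Ioo,
      Set.mem_diff, Set.mem_inter_iff, Metric.mem_ball, dist_zero_right, Set.mem_singleton_iff]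
    constructor
    · rintro ⟨a, ⟨ha0, ha1⟩, y, ⟨z, ⟨hz1, hzW⟩, rfl⟩, rfl⟩
      refine ⟨⟨(hcone a _ ha0).2 hzW, ?_⟩, ?_⟩
      · rw [norm_smul, hz1, mul_one, Real.norm_of_nonneg ha0.le]; exact ha1
      · intro h
        rw [smul_eq_zero] at h
        rcases h with h | h
        · exact ha0.ne' h
        · rw [h, norm_zero] at hz1; exact zero_ne_one hz1
    · rintro ⟨⟨hxW, hx1⟩, hx0⟩
      have hxn : 0 < ‖x‖ := norm_pos_iff.2 hx0
      have h5 : ‖(‖x‖⁻¹ • x)‖ = 1 := by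
        rw [norm_smul, norm_inv, norm_norm, inv_mul_cancel₀ hxn.ne']
      refine ⟨‖x‖, ⟨hxn, hx1⟩, ‖x‖⁻¹ • x, ⟨⟨‖x‖⁻¹ • x, by simp [h5]⟩, ⟨h5, ?_⟩, rfl⟩, ?_⟩
      · exact (hcone _ _ (inv_pos.2 hxn)).2 hxW
      · rw [smul_smul, mul_inv_cancel₀ hxn.ne', one_smul]
  rw [hset]
  exact measure_diff_null (measure_singleton _)

end Pool.Agent.W555.SPM
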